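import Pool.Agent.helper56.CY.All

/-!
Edge-disjoint cycles and planar embeddings of graphs whose c_2-invariant at q = 2 is not zero.
-/

set_option autoImplicit false

namespace Pool.Agent.Results.MP_45d809_mp.EdgeDisjointCycles
open CT Pool.Agent.CY

/-- The structure of `G` (`n` = number of vertices): `b ≥ 1` pairwise edge-disjoint non-empty even
subgraphs meet at least `2 b + 1` vertices or all vertices; `n ≥ 2 b` if they do not cover all
edges, and `n ≥ 2 b - 2` in any case. For every rotation system (embedding in an orientable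
surface) and proper 2-colouring of the faces each colour has at most `n / 2 + 1` faces. If `G` is
connected and the embedding is planar then `n` is even, proper 2-colourings exist and each colour
has exactly `n / 2 + 1` faces. -/
def Spread {V : Type} [Fintype V] (G : SimpleGraph V) : Prop :=
  (∀ (b : ℕ) (C : Fin b → SimpleGraph V), EvenFamily G b C → 1 ≤ b →
    (span C ≠ Set.univ → 2 * b + 1 ≤ Nat.card (span C)) ∧
    (¬ Covers G C → 2 * b ≤ Fintype.card V) ∧ 2 * b ≤ Fintype.card V + 2) ∧
  ∀ R : Rotation G,
    (∀ κ : R.Face → Bool, R.Proper κ → ∀ x, 2 * R.num κ x ≤ Fintype.card V + 2) ∧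
    (G.Connected → R.Spherical → Even (Fintype.card V) ∧ (∃ κ : R.Face → Bool, R.Proper κ) ∧
      ∀ κ : R.Face → Bool, R.Proper κ → ∀ x, 2 * R.num κ x = Fintype.card V + 2)

theorem result :
    (∀ (V : Type) [Fintype V] [DecidableEq V] (G : SimpleGraph V) (v : V),
      FourRegular G → 6 ≤ Fintype.card V → ¬ C2Is (decompletion G v) (ZMod 2) 0 → Spread G) ∧
    (∀ (V : Type) [Fintype V] [DecidableEq V] (G : SimpleGraph V) (v : V),
      PrimeAncestor G → C2Is (decompletion G v) (ZMod 2) (-1) →
      Nonempty (G ≃g (⊤ : SimpleGraph (Fin 5))) ∨ Spread G) := by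
  have key : ∀ (V : Type) [Fintype V] [DecidableEq V] (G : SimpleGraph V) (v : V),
      FourRegular G → 6 ≤ Fintype.card V → ¬ C2Is (decompletion G v) (ZMod 2) 0 → Spread G := by
    intro V _ _ G v hG hn h
    exact ⟨ALL_FNA V G v hG hn h, ALL_FND V G v hG hn h⟩
  refine ⟨key, ?_⟩
  intro V _ _ G v hG h
  rcases Nat.lt_or_ge (Fintype.card V) 6 with h5 | h6
  · exact Or.inl (complete_of_five G hG.regular (by have := hG.five_le; omega))
  · exact Or.inr (key V G v hG.regular h6 (ALL_neg _ h))

end Pool.Agent.Results.MP_45d809_mp.EdgeDisjointCycles
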