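import Pool.Agent.helper5.IH.Main

/-!
# `c_2` at `q = 2` counts the Hamiltonian cycles of interlace graphs

The definitions (graph polynomial, number of zeros, `C2Is`, `decompletion`, `FourRegular`,
`PrimeAncestor`) are in `Pool/Agent/helper56/CT/Problem.lean`.
-/

namespace Pool.Agent.Results.MP_45d809_mp.InterlaceHamiltonian

open CT

variable {V : Type}

/-- The interlace graph of a closed walk: two different vertices `v`, `w` are adjacent if they occur
along the walk in the order `v, w, v, w` or `w, v, w, v` (the end of the walk, which is its starting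
vertex again, is not counted as an occurrence). -/
def interlaceGraph {G : SimpleGraph V} {u : V} (p : G.Walk u u) : SimpleGraph V :=
  SimpleGraph.fromRel fun v w => ∃ i j k l, i < j ∧ j < k ∧ k < l ∧ l < p.length ∧
    p.getVert i = v ∧ p.getVert j = w ∧ p.getVert k = v ∧ p.getVert l = w

/-- The number of Hamiltonian cycles of `H` (spanning connected subgraphs in which every vertex has
exactly two neighbours). -/
noncomputable def hamiltonianCycles (H : SimpleGraph V) : ℕ :=
  Nat.card {F : SimpleGraph V // F ≤ H ∧ F.Connected ∧ ∀ v, Nat.card {w // F.Adj v w} = 2}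

/-- For every 4-regular graph `G` with at least six vertices, every Eulerian closed walk `p` of `G`
and every vertex `v`, the invariant `c_2` of `G - v` at `q = 2` is the number of Hamiltonian cycles
of the interlace graph of `p`, modulo 2 (and connected 4-regular graphs have Eulerian closed
walks). Hence for a prime ancestor other than `K_5` with `c_2 = -1` at `q = 2` the interlace graph
of every Eulerian closed walk has an odd number of Hamiltonian cycles. -/
theorem result :
    (∀ (V : Type) [Fintype V] [DecidableEq V] (G : SimpleGraph V), FourRegular G →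
      6 ≤ Fintype.card V → ∀ (u : V) (p : G.Walk u u), p.IsEulerian → ∀ v,
        C2Is (decompletion G v) (ZMod 2) (hamiltonianCycles (interlaceGraph p) : ℤ)) ∧
    (∀ (V : Type) [Fintype V] [DecidableEq V] (G : SimpleGraph V), FourRegular G →
      G.Connected → ∃ (u : V) (p : G.Walk u u), p.IsEulerian) ∧
    (∀ (V : Type) [Fintype V] [DecidableEq V] (G : SimpleGraph V), PrimeAncestor G →
      (∃ v, C2Is (decompletion G v) (ZMod 2) (-1)) →
      Nonempty (G ≃g (⊤ : SimpleGraph (Fin 5))) ∨
        ∀ (u : V) (p : G.Walk u u), p.IsEulerian →
          Odd (hamiltonianCycles (interlaceGraph p))) := by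
  have key : ∀ (V : Type) [Fintype V] [DecidableEq V] (G : SimpleGraph V), FourRegular G →
      6 ≤ Fintype.card V → ∀ (u : V) (p : G.Walk u u), p.IsEulerian → ∀ v,
        C2Is (decompletion G v) (ZMod 2) (hamiltonianCycles (interlaceGraph p) : ℤ) := by
    intro V _ _ G hG hn u p hp v
    obtain ⟨h1, h2⟩ := Pool.Agent.IH.fWEU V G u p hG hp
    have h3 := Pool.Agent.IH.fFORM V G _ _ v hG hn h1
    rw [← h2] at h3
    exact h3
  refine ⟨key, fun V _ _ G hG hc => Pool.Agent.IH.fEXW V G hG hc, ?_⟩
  intro V _ _ G hG hv
  have h5 := hG.five_le
  rcases Nat.lt_or_ge (Fintype.card V) 6 with h7 | h7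
  · exact Or.inl (complete_of_five G hG.regular (by omega))
  · right
    obtain ⟨v, hv⟩ := hv
    intro u p hp
    have h9 := key V G hG.regular h7 u p hp v
    have h10 := c2_unique _ _ _ h9 hv
    rw [← Nat.not_even_iff_odd]
    rintro ⟨k, hk⟩
    rw [hk] at h10
    push_cast at h10
    omega

end Pool.Agent.Results.MP_45d809_mp.InterlaceHamiltonian
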