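import Pool.Agent.helper25.PP.Fin

/-!
# A positive proportion of the prime ancestors does not have `c_2 = -1`

The definitions (graph polynomial, number of zeros, `C2Is`, `decompletion`, `FourRegular`,
`PrimeAncestor`) are in `Pool/Agent/helper56/CT/Problem.lean`.
-/

namespace Pool.Agent.Results.MP_45d809_mp.PositiveProportion

open CT

/-- For every `ε > 0` and all large `n`: there are 4-regular graphs on the vertex set
`{0, ..., n - 1}`, and at least `1/5 - ε` times their number are prime ancestors `G` such that
`c_2^{(2)}(G - v) = 0`, hence not `-1`, for every vertex `v`. As every prime ancestor is 4-regular,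
Q1 holds in particular for at least a proportion `1/5 - ε` of the prime ancestors. -/
theorem result :
    ∀ ε : ℝ, 0 < ε → ∃ n₀ : ℕ, ∀ n : ℕ, n₀ ≤ n →
      0 < Nat.card {G : SimpleGraph (Fin n) // FourRegular G} ∧
      (1 / 5 - ε) * (Nat.card {G : SimpleGraph (Fin n) // FourRegular G} : ℝ) ≤
        (Nat.card {G : SimpleGraph (Fin n) // PrimeAncestor G ∧
          ∀ v, C2Is (decompletion G v) (ZMod 2) 0 ∧
            ¬ C2Is (decompletion G v) (ZMod 2) (-1)} : ℝ) :=
  PP.main PP.FV1 PP.fAAP PP.NE PP.fPOS

end Pool.Agent.Results.MP_45d809_mp.PositiveProportion
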