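import Pool.Agent.helper5.SYM.Main

/-!
# The symmetries of a 4-regular graph with `c_2 ≠ 0` at `q = 2`

The definitions (graph polynomial, number of zeros, `C2Is`, `decompletion`, `FourRegular`,
`PrimeAncestor`) are in `Pool/Agent/helper56/CT/Problem.lean`.
-/

namespace Pool.Agent.Results.MP_45d809_mp.Symmetries

open CT

variable {V : Type}

/-- `σ` is an automorphism of order 2. -/
def IsInvolution {G : SimpleGraph V} (σ : G ≃g G) : Prop := (∀ v, σ (σ v) = v) ∧ ∃ v, σ v ≠ v

/-- The number of vertices fixed by `σ`. -/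
noncomputable def fixedVertices {G : SimpleGraph V} (σ : G ≃g G) : ℕ := Nat.card {v // σ v = v}

/-- The number of edges `{u, σ u}` (for an involution: the edges inverted by `σ`). -/
noncomputable def invertedEdges {G : SimpleGraph V} (σ : G ≃g G) : ℕ :=
  Nat.card {a : Sym2 V // ∃ u, G.Adj u (σ u) ∧ a = s(u, σ u)}

/-- The symmetries of order a power of 2 are restricted as follows. -/
structure FewSymmetries (G : SimpleGraph V) : Prop where
  /-- An involution fixes at most two vertices and inverts at most two edges. -/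
  involution : ∀ σ : G ≃g G, IsInvolution σ → fixedVertices σ ≤ 2 ∧ invertedEdges σ ≤ 2
  /-- An involution does not fix two adjacent vertices. -/
  noFixedEdge : ∀ σ : G ≃g G, IsInvolution σ → ∀ u w, G.Adj u w → ¬ (σ u = u ∧ σ w = w)
  /-- An involution which fixes exactly one vertex inverts an edge. -/
  oneFixed : ∀ σ : G ≃g G, IsInvolution σ → fixedVertices σ = 1 → invertedEdges σ ≠ 0
  /-- The order of a vertex stabiliser is not divisible by 4. -/
  stabiliser : ∀ v, ¬ 4 ∣ Nat.card {σ : G ≃g G // σ v = v}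
  /-- Every 2-group of automorphisms embeds in a finite dihedral group. -/
  dihedral : ∀ P : Subgroup (G ≃g G), IsPGroup 2 P →
    ∃ k, 0 < k ∧ ∃ f : P →* DihedralGroup k, Function.Injective f

theorem few [Fintype V] [DecidableEq V] (G : SimpleGraph V) (hG : FourRegular G)
    (hn : 7 ≤ Fintype.card V) (hv : ∃ v, ¬ C2Is (decompletion G v) (ZMod 2) 0) :
    FewSymmetries G := by
  obtain ⟨h1, h2, h3⟩ := Pool.Agent.SYM.fFIN G hG hn hv
  exact ⟨fun σ hσ => ⟨(h1 σ hσ).1, (h1 σ hσ).2.1⟩, fun σ hσ => (h1 σ hσ).2.2.1,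
    fun σ hσ ha hb => (h1 σ hσ).2.2.2 ⟨ha, hb⟩, h2, h3⟩

/-- If `G` is 4-regular with at least seven vertices and the invariant `c_2` of `G - v` at `q = 2`
is not 0 for some `v`, then `G` has few symmetries. In particular this holds for every prime
ancestor with `c_2 = -1` at `q = 2` other than `K_5`. -/
theorem result :
    (∀ (V : Type) [Fintype V] [DecidableEq V] (G : SimpleGraph V), FourRegular G →
      7 ≤ Fintype.card V → (∃ v, ¬ C2Is (decompletion G v) (ZMod 2) 0) → FewSymmetries G) ∧
    (∀ (V : Type) [Fintype V] [DecidableEq V] (G : SimpleGraph V), PrimeAncestor G →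
      (∃ v, C2Is (decompletion G v) (ZMod 2) (-1)) →
      Nonempty (G ≃g (⊤ : SimpleGraph (Fin 5))) ∨ FewSymmetries G) := by
  refine ⟨fun V _ _ G hG hn hv => few G hG hn hv, ?_⟩
  intro V _ _ G hG hv
  have h5 := hG.five_le
  have h6 := no_prime_six G hG
  rcases Nat.lt_or_ge (Fintype.card V) 7 with h7 | h7
  · exact Or.inl (complete_of_five G hG.regular (by omega))
  · right
    obtain ⟨v, hv⟩ := hv
    refine few G hG.regular h7 ⟨v, fun h0 => ?_⟩
    have h8 := c2_unique _ _ _ h0 hv
    omega

end Pool.Agent.Results.MP_45d809_mp.Symmetries
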